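import Pool.Agent.H71.VK.Stmt

/-! An isomorphism of the quotient structures is an onto correspondence. -/

set_option autoImplicit false

open Set Pool.Agent.TK

namespace Pool.Agent.H71.VK

theorem pf_FLC {C : Type} : FLC C := by
  intro T M N ν ν' φ φ' g hM hN hg
  have key : ∀ l m, g (ν l) = ν' m → cval M l = cval N m ∧ l.length = m.length ∧
      ∀ π, g (ν (reindex π l)) = ν' (reindex π m) := by
    intro l m h
    have h1 : ∀ j, (cval N m, m.length, fun π => decide (ν' (reindex π m) = g j)) =
        (cval M l, l.length, fun π => decide (ν (reindex π l) = j)) := by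
      intro j
      rw [← hN.val m (g j), ← hM.val l j, ← h, hg]
    refine ⟨((Prod.ext_iff.1 (h1 0)).1).symm,
      ((Prod.ext_iff.1 (Prod.ext_iff.1 (h1 0)).2).1).symm, ?_⟩
    intro π
    have h2 := congrFun (Prod.ext_iff.1 (Prod.ext_iff.1 (h1 (ν (reindex π l)))).2).2 π
    simp only [decide_true, decide_eq_true_eq] at h2
    exact h2.symm
  refine ⟨⟨fun l m h => (key l m h).1, fun l m h => (key l m h).2.1,
    fun π l m h => (key l m h).2.2 π, ?_, ?_, ?_, ?_⟩, ?_⟩
  · intro l m l' m' h h1 h2
    rw [← (hM.ker l l').2 h1, h]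
    exact (hN.ker m m').2 h2
  · intro l m m' h h'
    exact (hN.ker m m').1 (h.symm.trans h')
  · intro l l' m h h'
    exact (hM.ker l l').1 (g.injective (h.trans h'.symm))
  · intro l
    obtain ⟨m, hm⟩ := hN.surj (g (ν l))
    exact ⟨m, hm.symm⟩
  · intro m
    obtain ⟨l, hl⟩ := hM.surj (g.symm (ν' m))
    exact ⟨l, by rw [hl, Equiv.apply_symm_apply]⟩

end Pool.Agent.H71.VK
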